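import Mathlib
import Pool.Agent.H32.MTL2

/-!
# MP_339e98_lc: single chain completeness fails for MTL and IMTL and holds for product-MTL
-/

namespace Pool.Agent.Results.MP_339e98_lc.SingleChain

open Pool.Agent.H32.Fuzzy

universe u

theorem result : ¬ SCC.{u} Logic.MTL ∧ ¬ SCC.{u} Logic.IMTL ∧ SCC.{0} Logic.PiMTL :=
  ⟨not_scc_MTL, not_scc_IMTL, scc_Pi⟩

end Pool.Agent.Results.MP_339e98_lc.SingleChain
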